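import Pool.Agent.Helper21_CYE.Fac

/-! # MP_734b60_nt: all factors of the derivative of a squarefree cyclotomic polynomial are large -/

namespace Pool.Agent.Results.MP_734b60_nt.FactorDegrees

/-- For every squarefree `n ≥ 3` every non-constant divisor `f` of the derivative of the cyclotomic
polynomial of order `n` over the rational numbers satisfies `2 ^ φ(n) ≤ n ^ (6 deg f)`, that is,
its degree is at least `φ(n) / (6 log₂ n)`. -/
theorem result (n : ℕ) (hn : 3 ≤ n) (hs : Squarefree n) (f : Polynomial ℚ)
    (hf : f ∣ Polynomial.derivative (Polynomial.cyclotomic n ℚ)) (hd : f.natDegree ≠ 0) :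
    2 ^ n.totient ≤ n ^ (6 * f.natDegree) :=
  Pool.Agent.CYE.H21.factor_degrees hn hs f hf hd

end Pool.Agent.Results.MP_734b60_nt.FactorDegrees
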