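import Pool.Agent.Helper25_CYE.Main

/-! # MP_734b60_nt: for every `k`, the derivatives of the cyclotomic polynomials of all but finitely
many squarefree orders with `k` prime factors are irreducible; the exceptional squarefree orders
have density zero -/

namespace Pool.Agent.Results.MP_734b60_nt.FewPrimeFactors

/-- (1) Let `n` be squarefree with `k` prime factors, one of which is at least `2 ^ (30 k 2 ^ k)`.
Then the derivative of the cyclotomic polynomial of order `n` is irreducible over the rational
numbers.  (2) The same is true if `n ≥ 3` is squarefree with `k` prime factors and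
`n ≥ 2 ^ (30 k ^ 2 2 ^ k)`.  (3) The number of the squarefree `n` with `3 ≤ n ≤ N` for which the
derivative of the cyclotomic polynomial of order `n` is not irreducible over the rational numbers is
at most `C N / (log N) ^ (1 / 50)`. -/
theorem result :
    (∀ n p : ℕ, Squarefree n → p.Prime → p ∣ n →
      2 ^ (30 * n.primeFactors.card * 2 ^ n.primeFactors.card) ≤ p →
      Irreducible (Polynomial.derivative (Polynomial.cyclotomic n ℚ))) ∧
    (∀ n : ℕ, 3 ≤ n → Squarefree n →
      2 ^ (30 * n.primeFactors.card ^ 2 * 2 ^ n.primeFactors.card) ≤ n →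
      Irreducible (Polynomial.derivative (Polynomial.cyclotomic n ℚ))) ∧
    ∃ C : ℝ, ∀ N : ℕ, 2 ≤ N →
      ({n : ℕ | n ≤ N ∧ 3 ≤ n ∧ Squarefree n ∧
        ¬ Irreducible (Polynomial.derivative (Polynomial.cyclotomic n ℚ))}.ncard : ℝ) ≤
        C * N / Real.log N ^ ((1 : ℝ) / 50) :=
  ⟨Pool.Agent.CYE.H25.thK, Pool.Agent.CYE.H25.thk_of_th2 Pool.Agent.CYE.H25.thK,
    Pool.Agent.CYE.H25.count_of_th2 Pool.Agent.CYE.H25.thK⟩

end Pool.Agent.Results.MP_734b60_nt.FewPrimeFactors
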