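import Pool.Agent.Helper85_CYD.Main2
import Pool.Agent.Helper18_CYD.Disc
import Pool.Agent.Helper27_CYD.Pdv

/-! # MP_734b60_nt: derivatives of cyclotomic polynomials whose order has a large prime factor -/

namespace Pool.Agent.Results.MP_734b60_nt.LargePrimeFactor

/-- For every squarefree positive integer `m` and every prime `p ≥ 12 m ^ 2` the derivative of the
cyclotomic polynomial of order `p m` is irreducible over the rational numbers. -/
theorem result (m p : ℕ) (hm : Squarefree m) (hp : p.Prime) (h : 12 * m ^ 2 ≤ p) :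
    Irreducible (Polynomial.derivative (Polynomial.cyclotomic (p * m) ℚ)) :=
  Pool.Agent.CYD.main2 Pool.Agent.CYD.H18.disc Pool.Agent.CYD.H18.coe
    (Pool.Agent.CYD.H27.pdv (Pool.Agent.CYD.loc Pool.Agent.CYD.unr Pool.Agent.CYD.ram)
      Pool.Agent.CYD.ram Pool.Agent.CYD.spl) p m hp hm h

end Pool.Agent.Results.MP_734b60_nt.LargePrimeFactor
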