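import Pool.Agent.Helper85_CYD.MainOne
import Pool.Agent.Helper18_CYD.Disc

/-! # MP_734b60_nt: squarefree orders with at most two odd prime factors -/

namespace Pool.Agent.Results.MP_734b60_nt.TwoOddPrimes

/-- For every squarefree `n ≥ 3` with at most two odd prime factors the derivative of the
cyclotomic polynomial of order `n` is irreducible over the rational numbers. -/
theorem result (n : ℕ) (hn : Squarefree n) (h3 : 3 ≤ n)
    (h : (n.primeFactors.erase 2).card ≤ 2) :
    Irreducible (Polynomial.derivative (Polynomial.cyclotomic n ℚ)) :=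
  Pool.Agent.CYD.two_odd Pool.Agent.CYD.H18.disc Pool.Agent.CYD.H18.coe hn h3 h

end Pool.Agent.Results.MP_734b60_nt.TwoOddPrimes
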